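import Pool.Agent.Helper26.DZDefs

/-!
# Packet C of MP_8199af_an: identities on the unit circle
-/

open Complex Metric Set Filter Topology

namespace Pool.Agent.Helper3.DZ

open Pool.Agent.Helper26.DZ

/-- splitting of `ℕ × ℕ` along the diagonal -/
def splitEquiv : (ℕ × ℕ) ⊕ (ℕ × ℕ) ≃ ℕ × ℕ where
  toFun := Sum.elim (fun p => (p.2 + p.1, p.2)) (fun p => (p.2, p.2 + p.1 + 1))
  invFun p := if p.2 ≤ p.1 then Sum.inl (p.1 - p.2, p.2) else Sum.inr (p.2 - p.1 - 1, p.1)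
  left_inv := by
    rintro (⟨a, b⟩ | ⟨a, b⟩)
    · have h : b ≤ b + a := by omega
      simp [h]
    · have h : ¬ b + a + 1 ≤ b := by omega
      simp only [Sum.elim_inr, h, if_false]
      congr 2
      omega
  right_inv := by
    rintro ⟨a, b⟩
    by_cases h : b ≤ a
    · simp only [h, if_true, Sum.elim_inl]
      ext
      · simp; omega
      · simp
    · simp only [h, if_false, Sum.elim_inr]
      ext <;> simp; omega

lemma summable_left (α β : ℕ → ℂ) (ha : Summable fun m => ‖α m‖) (hb : Summable fun m => ‖β m‖) :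
    Summable (fun p : ℕ × ℕ => α (p.2 + p.1) * β p.2) := by
  have hs : Summable (fun p : ℕ × ℕ => α p.1 * β p.2) := summable_mul_of_summable_norm ha hb
  have h2 := (splitEquiv.summable_iff.mpr hs)
  exact h2.comp_injective (i := (Sum.inl : ℕ × ℕ → (ℕ × ℕ) ⊕ (ℕ × ℕ))) Sum.inl_injective

lemma summable_right (α β : ℕ → ℂ) (ha : Summable fun m => ‖α m‖)
    (hb : Summable fun m => ‖β m‖) :
    Summable (fun p : ℕ × ℕ => α p.2 * β (p.2 + p.1 + 1)) := by
  have hs : Summable (fun p : ℕ × ℕ => α p.1 * β p.2) := summable_mul_of_summable_norm ha hb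
  have h2 := (splitEquiv.summable_iff.mpr hs)
  exact h2.comp_injective (i := (Sum.inr : ℕ × ℕ → (ℕ × ℕ) ⊕ (ℕ × ℕ))) Sum.inr_injective

lemma split (α β : ℕ → ℂ) (ha : Summable fun m => ‖α m‖) (hb : Summable fun m => ‖β m‖) :
    (∑' m, α m) * (∑' l, β l) =
      (∑' n, ∑' j, α (j + n) * β j) + ∑' n, ∑' j, α j * β (j + n + 1) := by
  have h1 := summable_left α β ha hb
  have h2 := summable_right α β ha hb
  rw [tsum_mul_tsum_of_summable_norm ha hb, ← splitEquiv.tsum_eq, Summable.tsum_sum]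
  · congr 1
    · exact h1.tsum_prod
    · exact h2.tsum_prod
  · exact h1
  · exact h2

lemma tsum_conj (f : ℕ → ℂ) : (starRingEnd ℂ) (∑' n, f n) = ∑' n, (starRingEnd ℂ) (f n) :=
  Complex.conj_tsum f

section
variable {E : ℝ} {u : ℕ → ℂ} (h : Ext E u)
include h

lemma sum1 : Summable (fun k : ℕ => ((k : ℝ) + 1) * ‖u k‖) := by
  obtain ⟨C, r, hr0, hr1, hC⟩ := h.decay
  have hr : ‖r‖ < 1 := by rw [Real.norm_eq_abs, abs_of_pos hr0]; exact hr1
  have s1 := summable_pow_mul_geometric_of_norm_lt_one 1 hr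
  have s0 := summable_pow_mul_geometric_of_norm_lt_one 0 hr
  have s2 := (s1.add s0).mul_left C
  refine Summable.of_nonneg_of_le (fun k => by positivity) (fun k => ?_) s2
  have := hC k
  have h1 : (0 : ℝ) ≤ (k : ℝ) + 1 := by positivity
  calc ((k : ℝ) + 1) * ‖u k‖ ≤ ((k : ℝ) + 1) * (C * r ^ k) := by gcongr
    _ = _ := by ring

lemma sum0 : Summable (fun k : ℕ => ‖u k‖) := by
  refine Summable.of_nonneg_of_le (fun k => by positivity) (fun k => ?_) (sum1 h)
  nlinarith [norm_nonneg (u k), (Nat.cast_nonneg k : (0 : ℝ) ≤ k)]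

lemma sum1c : Summable (fun k : ℕ => ‖((k : ℂ) + 1) * u k‖) := by
  refine (sum1 h).congr (fun k => ?_)
  rw [norm_mul]
  congr 1
  rw [show ((k : ℂ) + 1) = (((k : ℝ) + 1 : ℝ) : ℂ) by push_cast; rfl, Complex.norm_real,
    Real.norm_eq_abs, abs_of_pos (by positivity)]

end

lemma zz {ζ : ℂ} (hζ : ‖ζ‖ = 1) : ζ * (starRingEnd ℂ) ζ = 1 := by
  rw [Complex.mul_conj, Complex.normSq_eq_norm_sq, hζ]; norm_num

lemma pow_split {ζ : ℂ} (hζ : ‖ζ‖ = 1) (j n : ℕ) :
    ζ ^ (j + n) * (starRingEnd ℂ) ζ ^ j = ζ ^ n := by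
  rw [pow_add]
  calc ζ ^ j * ζ ^ n * (starRingEnd ℂ) ζ ^ j = (ζ * (starRingEnd ℂ) ζ) ^ j * ζ ^ n := by
        rw [mul_pow]; ring
    _ = ζ ^ n := by rw [zz hζ]; simp

lemma pow_split' {ζ : ℂ} (hζ : ‖ζ‖ = 1) (j n : ℕ) :
    ζ ^ j * (starRingEnd ℂ) ζ ^ (j + n) = (starRingEnd ℂ) ζ ^ n := by
  rw [pow_add]
  calc ζ ^ j * ((starRingEnd ℂ) ζ ^ j * (starRingEnd ℂ) ζ ^ n)
      = (ζ * (starRingEnd ℂ) ζ) ^ j * (starRingEnd ℂ) ζ ^ n := by
        rw [mul_pow]; ring
    _ = (starRingEnd ℂ) ζ ^ n := by rw [zz hζ]; simp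

/-- the general product formula on the unit circle -/
lemma prodFormula {ζ : ℂ} (hζ : ‖ζ‖ = 1) (a b : ℕ → ℂ) (ha : Summable fun m => ‖a m‖)
    (hb : Summable fun m => ‖b m‖) :
    (∑' m, a m * ζ ^ m) * (starRingEnd ℂ) (∑' l, b l * ζ ^ l) =
      (∑' n, (∑' j, a (j + n) * (starRingEnd ℂ) (b j)) * ζ ^ n) +
        ∑' n, (∑' j, a j * (starRingEnd ℂ) (b (j + n + 1))) * (starRingEnd ℂ) ζ ^ (n + 1) := by
  rw [tsum_conj, split]
  · congr 1
    · refine tsum_congr (fun n => ?_)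
      rw [← tsum_mul_right]
      refine tsum_congr (fun j => ?_)
      rw [map_mul, map_pow, ← pow_split hζ j n]; ring
    · refine tsum_congr (fun n => ?_)
      rw [← tsum_mul_right]
      refine tsum_congr (fun j => ?_)
      rw [map_mul, map_pow, ← pow_split' hζ j (n + 1)]; ring
  · refine ha.congr (fun m => ?_)
    rw [norm_mul, norm_pow, hζ]; simp
  · refine hb.congr (fun m => ?_)
    rw [map_mul, norm_mul, map_pow, norm_pow, RCLike.norm_conj, RCLike.norm_conj, hζ]; simp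

section
variable {E : ℝ} {u : ℕ → ℂ} (h : Ext E u)
include h

lemma shS (n : ℕ) : Summable (fun j => u (j + n) * (starRingEnd ℂ) (u j)) := by
  have := summable_left u (fun j => (starRingEnd ℂ) (u j)) (sum0 h)
    ((sum0 h).congr (fun m => by rw [RCLike.norm_conj]))
  exact this.prod_factor n

lemma orS (n : ℕ) :
    Summable (fun j : ℕ => ((j : ℂ) + n + 1) * (u j * (starRingEnd ℂ) (u (j + n)))) := by
  have := summable_left (fun j : ℕ => (starRingEnd ℂ) (((j : ℂ) + 1) * u j)) u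
    ((sum1c h).congr (fun m => by rw [RCLike.norm_conj])) (sum0 h)
  refine (this.prod_factor n).congr (fun j => ?_)
  simp only [map_mul, map_add, map_natCast, map_one, Nat.cast_add]
  ring

omit h in
lemma conj_sh (n : ℕ) : (starRingEnd ℂ) (sh u n) = ∑' j, u j * (starRingEnd ℂ) (u (j + n)) := by
  unfold sh
  rw [tsum_conj]
  refine tsum_congr (fun j => ?_)
  rw [map_mul, Complex.conj_conj]; ring

/-- `∑_j (j+1) u_j conj(u_{j+n+1}) = -(n+1) conj(ŝ(n+1))` -/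
lemma coef (n : ℕ) : ∑' j : ℕ, ((j : ℂ) + 1) * (u j * (starRingEnd ℂ) (u (j + n + 1))) =
    -((n : ℂ) + 1) * (starRingEnd ℂ) (sh u (n + 1)) := by
  have h1 := orS h (n + 1)
  have h2 : Summable (fun j => u j * (starRingEnd ℂ) (u (j + (n + 1)))) := by
    have := (shS h (n + 1)).map (starRingEnd ℂ) Complex.continuous_conj
    refine this.congr (fun j => ?_)
    simp only [Function.comp, map_mul, Complex.conj_conj]; ring
  have h3 := h.orth (n + 1)
  rw [if_neg (Nat.succ_ne_zero n)] at h3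
  rw [conj_sh, ← tsum_mul_left]
  have h4 : ∑' j : ℕ, (((j : ℂ) + ((n + 1 : ℕ) : ℂ) + 1) *
      (u j * (starRingEnd ℂ) (u (j + (n + 1)))) -
      ((n : ℂ) + 1) * (u j * (starRingEnd ℂ) (u (j + (n + 1))))) =
      0 - ∑' j : ℕ, ((n : ℂ) + 1) * (u j * (starRingEnd ℂ) (u (j + (n + 1)))) := by
    rw [Summable.tsum_sub h1 (h2.mul_left _), h3]
  rw [zero_sub, ← tsum_neg] at h4
  calc _ = ∑' j : ℕ, (((j : ℂ) + ((n + 1 : ℕ) : ℂ) + 1) *
      (u j * (starRingEnd ℂ) (u (j + (n + 1)))) -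
      ((n : ℂ) + 1) * (u j * (starRingEnd ℂ) (u (j + (n + 1))))) := by
        refine tsum_congr (fun j => ?_)
        push_cast
        rw [show j + n + 1 = j + (n + 1) by ring]
        ring
    _ = _ := by
        rw [h4]
        refine tsum_congr (fun j => ?_)
        ring

/-- `∑_j u_{j+n+1} conj((j+1) u_j) = -(n+1) ŝ(n+1)` -/
lemma coef' (n : ℕ) : ∑' j : ℕ, u (j + (n + 1)) * (starRingEnd ℂ) (((j : ℂ) + 1) * u j) =
    -((n : ℂ) + 1) * sh u (n + 1) := by
  have := congrArg (starRingEnd ℂ) (coef h n)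
  rw [tsum_conj] at this
  simp only [map_mul, map_neg, map_add, map_natCast, map_one, Complex.conj_conj] at this
  rw [← this]
  refine tsum_congr (fun j => ?_)
  simp only [map_mul, map_add, map_natCast, map_one]
  rw [show j + n + 1 = j + (n + 1) by ring]
  ring

lemma shζ {ζ : ℂ} (hζ : ‖ζ‖ = 1) : Summable (fun n => sh u n * ζ ^ n) := by
  have := summable_left (fun m => u m * ζ ^ m) (fun m => (starRingEnd ℂ) (u m * ζ ^ m))
    ((sum0 h).congr (fun m => by rw [norm_mul, norm_pow, hζ]; simp))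
    ((sum0 h).congr (fun m => by rw [RCLike.norm_conj, norm_mul, norm_pow, hζ]; simp))
  refine this.prod.congr (fun n => ?_)
  unfold sh
  rw [← tsum_mul_right]
  refine tsum_congr (fun j => ?_)
  simp only [map_mul, map_pow]
  rw [← pow_split hζ j n]; ring

lemma part1 {ζ : ℂ} (hζ : ‖ζ‖ = 1) :
    (((‖UU u ζ‖ ^ 2 : ℝ) : ℂ) = sh u 0 + FF u ζ + (starRingEnd ℂ) (FF u ζ)) := by
  have h0 : (((‖UU u ζ‖ ^ 2 : ℝ) : ℂ)) = UU u ζ * (starRingEnd ℂ) (UU u ζ) := by
    rw [Complex.mul_conj, Complex.normSq_eq_norm_sq]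
  rw [h0]
  unfold UU
  rw [prodFormula hζ u u (sum0 h) (sum0 h)]
  congr 1
  · have h1 : ∀ n, (∑' j, u (j + n) * (starRingEnd ℂ) (u j)) * ζ ^ n = sh u n * ζ ^ n :=
      fun n => rfl
    rw [tsum_congr h1, (shζ h hζ).tsum_eq_zero_add, pow_zero, mul_one]
    rfl
  · unfold FF
    rw [tsum_conj]
    refine tsum_congr (fun n => ?_)
    rw [map_mul, conj_sh, map_pow]
    rfl

lemma part2 {ζ : ℂ} (hζ : ‖ζ‖ = 1) : WW E u ζ = UU u ζ * (starRingEnd ℂ) (AA u ζ) := by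
  unfold UU AA
  rw [prodFormula hζ u (fun m => ((m : ℂ) + 1) * u m) (sum0 h) (sum1c h)]
  have h2 : ∀ n : ℕ, (∑' j, u j * (starRingEnd ℂ) (((((j + n + 1 : ℕ) : ℂ)) + 1) *
      u (j + n + 1))) * (starRingEnd ℂ) ζ ^ (n + 1) = 0 := by
    intro n
    have h3 := h.orth (n + 1)
    rw [if_neg (Nat.succ_ne_zero n)] at h3
    have h4 : (∑' j, u j * (starRingEnd ℂ) (((((j + n + 1 : ℕ) : ℂ)) + 1) *
      u (j + n + 1))) = 0 := by
      rw [← h3]
      refine tsum_congr (fun j => ?_)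
      simp only [map_mul, map_add, map_natCast, map_one]
      rw [show j + n + 1 = j + (n + 1) by ring]
      push_cast
      ring
    rw [h4, zero_mul]
  rw [tsum_congr h2, tsum_zero, add_zero]
  have hs : Summable (fun n => (∑' j, u (j + n) *
      (starRingEnd ℂ) (((j : ℂ) + 1) * u j)) * ζ ^ n) := by
    have := summable_left (fun m => u m * ζ ^ m)
      (fun m => (starRingEnd ℂ) ((((m : ℂ) + 1) * u m) * ζ ^ m))
      ((sum0 h).congr (fun m => by rw [norm_mul, norm_pow, hζ]; simp))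
      ((sum1c h).congr (fun m => by rw [RCLike.norm_conj, norm_mul _ (ζ ^ m), norm_pow, hζ]; simp))
    refine this.prod.congr (fun n => ?_)
    rw [← tsum_mul_right]
    refine tsum_congr (fun j => ?_)
    rw [map_mul _ _ (ζ ^ j), map_pow, ← pow_split hζ j n]; ring
  rw [hs.tsum_eq_zero_add]
  unfold WW
  rw [sub_eq_add_neg, ← tsum_neg]
  congr 1
  · rw [pow_zero, mul_one]
    have h3 := h.orth 0
    rw [if_pos rfl] at h3
    rw [← h3]
    have h5 : (starRingEnd ℂ) (∑' j : ℕ, ((j : ℂ) + ((0 : ℕ) : ℂ) + 1) *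
        (u j * (starRingEnd ℂ) (u (j + 0)))) =
        ∑' j : ℕ, ((j : ℂ) + ((0 : ℕ) : ℂ) + 1) * (u j * (starRingEnd ℂ) (u (j + 0))) := by
      rw [h3, Complex.conj_ofReal]
    rw [← h5, tsum_conj]
    refine tsum_congr (fun j => ?_)
    simp only [map_mul, map_add, map_natCast, map_one, Complex.conj_conj, Nat.cast_zero, add_zero]
    ring
  · refine tsum_congr (fun n => ?_)
    rw [coef' h n]
    ring

end

lemma abel (T : ℕ → ℝ) (N : ℕ) :
    ∑ i ∈ Finset.range N, T i =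
      ∑ i ∈ Finset.range N, ((i : ℝ) + 1) * (T i - T (i + 1)) + N * T N := by
  induction N with
  | zero => simp
  | succ n ih =>
    rw [Finset.sum_range_succ, ih, Finset.sum_range_succ]
    push_cast
    ring

lemma normSq_add_sub (a b : ℂ) :
    ‖a + b‖ ^ 2 - ‖b‖ ^ 2 = ‖a‖ ^ 2 + 2 * (a * (starRingEnd ℂ) b).re := by
  rw [← Complex.normSq_eq_norm_sq, ← Complex.normSq_eq_norm_sq, ← Complex.normSq_eq_norm_sq,
    Complex.normSq_add]
  ring

section
variable {E : ℝ} {u : ℕ → ℂ} (h : Ext E u)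
include h

lemma part3 {ζ : ℂ} (hζ : ‖ζ‖ = 1) :
    E + ‖UU u ζ‖ ^ 2 ≤ 2 * (UU u ζ * (starRingEnd ℂ) (AA u ζ)).re := by
  rw [← part2 h hζ]
  set t : ℕ → ℂ := fun m => u m * ζ ^ m with ht
  have nt : ∀ m, ‖t m‖ = ‖u m‖ := fun m => by
    simp only [ht]; rw [norm_mul, norm_pow, hζ]; simp
  have st : Summable (fun m => ‖t m‖) := (sum0 h).congr (fun m => (nt m).symm)
  have st1 : Summable (fun m : ℕ => ‖((m : ℂ) + 1) * t m‖) :=
    (sum1c h).congr (fun m => by rw [norm_mul, norm_mul, nt])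
  set T : ℕ → ℂ := fun i => ∑' j, t (j + i) with hT
  have sT : ∀ i, Summable (fun j => t (j + i)) := fun i =>
    (summable_nat_add_iff i).mpr st.of_norm
  have T0 : T 0 = UU u ζ := rfl
  have Tsucc : ∀ i, T i = t i + T (i + 1) := by
    intro i
    have := (sT i).tsum_eq_zero_add
    simp only [zero_add] at this
    simp only [hT]
    rw [this]
    congr 1
    refine tsum_congr (fun j => ?_)
    rw [show j + 1 + i = j + (i + 1) by ring]
  -- the double sum
  have hG : Summable (fun p : ℕ × ℕ => (((p.2 : ℂ) + 1) * t p.2) *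
      (starRingEnd ℂ) (t (p.2 + p.1 + 1))) :=
    summable_right (fun m : ℕ => ((m : ℂ) + 1) * t m) (fun m => (starRingEnd ℂ) (t m)) st1
      (st.congr (fun m => by rw [RCLike.norm_conj]))
  have hcomm := Summable.tsum_comm (f := fun (n j : ℕ) => (((j : ℂ) + 1) * t j) *
      (starRingEnd ℂ) (t (j + n + 1))) hG
  have e1 : ∀ n : ℕ, ∑' j : ℕ, (((j : ℂ) + 1) * t j) * (starRingEnd ℂ) (t (j + n + 1)) =
      -(starRingEnd ℂ) (((n : ℂ) + 1) * sh u (n + 1) * ζ ^ (n + 1)) := by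
    intro n
    have h1 := coef h n
    have : ∑' j : ℕ, (((j : ℂ) + 1) * t j) * (starRingEnd ℂ) (t (j + n + 1)) =
        (∑' j : ℕ, ((j : ℂ) + 1) * (u j * (starRingEnd ℂ) (u (j + n + 1)))) *
          (starRingEnd ℂ) ζ ^ (n + 1) := by
      rw [← tsum_mul_right]
      refine tsum_congr (fun j => ?_)
      simp only [ht, map_mul, map_pow]
      rw [← pow_split' hζ j (n + 1)]; ring_nf
    rw [this, h1]
    simp only [map_mul, map_add, map_natCast, map_one, map_pow]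
    ring
  have e2 : ∀ j : ℕ, ∑' n : ℕ, (((j : ℂ) + 1) * t j) * (starRingEnd ℂ) (t (j + n + 1)) =
      (((j : ℂ) + 1) * t j) * (starRingEnd ℂ) (T (j + 1)) := by
    intro j
    rw [tsum_mul_left, hT]
    congr 1
    simp only
    rw [tsum_conj]
    refine tsum_congr (fun n => ?_)
    rw [show n + (j + 1) = j + n + 1 by ring]
  have hsum : Summable (fun j : ℕ => (((j : ℂ) + 1) * t j) * (starRingEnd ℂ) (T (j + 1))) :=
    (hG.prod_symm.prod).congr (fun j => (e2 j))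
  have hval : ∑' j : ℕ, (((j : ℂ) + 1) * t j) * (starRingEnd ℂ) (T (j + 1)) =
      (starRingEnd ℂ) (WW E u ζ) - E := by
    rw [← tsum_congr e2, hcomm, tsum_congr e1]
    unfold WW
    rw [map_sub, tsum_neg, tsum_conj, Complex.conj_ofReal]
    ring
  have hE : HasSum (fun j : ℕ => ((j : ℝ) + 1) * ‖t j‖ ^ 2) E := by
    have h3 := h.orth 0
    rw [if_pos rfl] at h3
    have h4 := (orS h 0).hasSum
    rw [h3] at h4
    have h5 := Complex.hasSum_re h4
    rw [Complex.ofReal_re] at h5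
    convert h5 using 1
    funext j
    symm
    rw [nt, add_zero, Complex.mul_conj, Complex.normSq_eq_norm_sq]
    rw [show ((j : ℂ) + ((0 : ℕ) : ℂ) + 1) * ((‖u j‖ ^ 2 : ℝ) : ℂ) =
      ((((j : ℝ) + 1) * ‖u j‖ ^ 2 : ℝ) : ℂ) by push_cast; ring, Complex.ofReal_re]
  have hA : HasSum (fun j : ℕ => ((j : ℝ) + 1) * (‖T j‖ ^ 2 - ‖T (j + 1)‖ ^ 2))
      (2 * (WW E u ζ).re - E) := by
    have h1 := hsum.hasSum
    rw [hval] at h1
    have h2 := hE.add ((Complex.hasSum_re h1).mul_left 2)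
    have h3 : E + 2 * ((starRingEnd ℂ) (WW E u ζ) - (E : ℂ)).re = 2 * (WW E u ζ).re - E := by
      rw [Complex.sub_re, Complex.conj_re, Complex.ofReal_re]; ring
    rw [h3] at h2
    convert h2 using 1
    funext j
    rw [Tsucc j, normSq_add_sub, mul_assoc ((j : ℂ) + 1)]
    rw [show ((j : ℂ) + 1) = (((j : ℝ) + 1 : ℝ) : ℂ) by push_cast; rfl, Complex.re_ofReal_mul]
    ring
  -- tails
  have hτ : Tendsto (fun N : ℕ => ∑' j : ℕ, (((j + N : ℕ) : ℝ) + 1) * ‖u (j + N)‖) atTop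
      (𝓝 0) := tendsto_sum_nat_add (fun k : ℕ => ((k : ℝ) + 1) * ‖u k‖)
  have hsτ : ∀ N : ℕ, Summable (fun j : ℕ => (((j + N : ℕ) : ℝ) + 1) * ‖u (j + N)‖) := fun N =>
    (summable_nat_add_iff (f := fun k : ℕ => ((k : ℝ) + 1) * ‖u k‖) N).mpr (sum1 h)
  have hs0 : ∀ N : ℕ, Summable (fun j : ℕ => ‖u (j + N)‖) := fun N =>
    (summable_nat_add_iff (f := fun k : ℕ => ‖u k‖) N).mpr (sum0 h)
  have hTb : ∀ N, ‖T N‖ ≤ ∑' j : ℕ, ‖u (j + N)‖ := by
    intro N
    have h1 : Summable (fun j : ℕ => ‖t (j + N)‖) := by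
      simp only [nt]; exact hs0 N
    refine (norm_tsum_le_tsum_norm h1).trans (le_of_eq ?_)
    exact tsum_congr (fun j => nt _)
  have hT1 : ∀ N, ‖T N‖ ≤ ∑' j : ℕ, (((j + N : ℕ) : ℝ) + 1) * ‖u (j + N)‖ := by
    intro N
    refine (hTb N).trans ((hs0 N).tsum_le_tsum (fun j => ?_) (hsτ N))
    have : (0 : ℝ) ≤ ((j + N : ℕ) : ℝ) := Nat.cast_nonneg _
    nlinarith [norm_nonneg (u (j + N))]
  have hT2 : ∀ N : ℕ, (N : ℝ) * ‖T N‖ ≤ ∑' j : ℕ, (((j + N : ℕ) : ℝ) + 1) * ‖u (j + N)‖ := by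
    intro N
    refine (mul_le_mul_of_nonneg_left (hTb N) (Nat.cast_nonneg N)).trans ?_
    rw [← tsum_mul_left]
    refine ((hs0 N).mul_left _).tsum_le_tsum (fun j => ?_) (hsτ N)
    push_cast
    have : (0 : ℝ) ≤ (j : ℝ) := Nat.cast_nonneg _
    nlinarith [norm_nonneg (u (j + N)), mul_nonneg this (norm_nonneg (u (j + N)))]
  have hlim : Tendsto (fun N : ℕ => (N : ℝ) * ‖T N‖ ^ 2) atTop (𝓝 0) := by
    have h2 := hτ.mul hτ
    rw [mul_zero] at h2
    refine squeeze_zero (fun N => by positivity) (fun N => ?_) h2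
    calc (N : ℝ) * ‖T N‖ ^ 2 = ((N : ℝ) * ‖T N‖) * ‖T N‖ := by ring
      _ ≤ _ := mul_le_mul (hT2 N) (hT1 N) (norm_nonneg _)
        (le_trans (by positivity) (hT2 N))
  have hfin := hA.tendsto_sum_nat.add hlim
  rw [add_zero] at hfin
  have hge : ∀ᶠ N : ℕ in atTop, ‖UU u ζ‖ ^ 2 ≤
      ∑ i ∈ Finset.range N, ((i : ℝ) + 1) * (‖T i‖ ^ 2 - ‖T (i + 1)‖ ^ 2) + N * ‖T N‖ ^ 2 := by
    filter_upwards [eventually_ge_atTop 1] with N hN
    rw [← abel (fun i => ‖T i‖ ^ 2) N, ← T0]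
    exact Finset.single_le_sum (f := fun i => ‖T i‖ ^ 2) (fun i _ => by positivity)
      (Finset.mem_range.mpr hN)
  have := ge_of_tendsto hfin hge
  linarith

end

theorem stmtC : StmtC := fun _ _ h _ hζ => ⟨part1 h hζ, part2 h hζ, part3 h hζ⟩

end Pool.Agent.Helper3.DZ
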